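import Mathlib
import Pool.Agent.Lib.helper4.BaseRes2

set_option autoImplicit false

namespace Pool.Agent.Results.MP_87f021_gt.NotResolvable

open TopologicalSpace

/-- A family `B` of subsets of `X` is resolvable if it is the disjoint union of two bases. -/
def Resolvable {X : Type} [TopologicalSpace X] (B : Set (Set X)) : Prop :=
  ∃ B₀ B₁ : Set (Set X), B₀ ∪ B₁ = B ∧ Disjoint B₀ B₁ ∧
    IsTopologicalBasis B₀ ∧ IsTopologicalBasis B₁

theorem result : ∃ (X : Type) (_ : TopologicalSpace X), T2Space X ∧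
    (∀ x : X, ¬ IsOpen ({x} : Set X)) ∧ ∃ B : Set (Set X), IsTopologicalBasis B ∧
      (∀ U ∈ B, IsClopen U) ∧ (∀ U ∈ B, ∀ V ∈ B, U ∩ V ∈ B) ∧ ¬ Resolvable B := by
  open Pool.Agent.Lib.helper4.BaseRes in
  refine ⟨X, inferInstance, inferInstance, no_isolated, Bs, basis, ?_, Bs_inter,
    fun ⟨B₀, B₁, a, b, c, d⟩ => not_res B₀ B₁ a b c d⟩
  rintro _ (rfl | ⟨x, rfl⟩)
  exacts [isClopen_empty, ⟨Pool.Agent.Lib.helper4.BaseRes.B_closed x,
    Pool.Agent.Lib.helper4.BaseRes.B_open x⟩]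

end Pool.Agent.Results.MP_87f021_gt.NotResolvable
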